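import Pool.Agent.Y773.HK.Defs
import Pool.Agent.W820.TW.FE

/-!
# Gamma factors of degree `d`
-/

set_option autoImplicit false

open Complex Filter Topology Set MeasureTheory Asymptotics
open H370.DL (refl hasDerivAt_refl analyticAt_refl im_osc re_osc eventually_im_ne
  ne_neg_nat_of_im logDeriv_refl order_refl Gammaℝ_ne_zero_of_im analyticAt_Gammaℝ
  logDeriv_Gammaℝ_bound)
open Pool.Agent.Y773 (GG FEd)
open Pool.Agent.W820.TW (inv_Gamma_le conj_real_cpow)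

namespace Pool.Agent.Y772.FE

variable {ι : Type} [Fintype ι]

lemma im_add_nat (s : ℂ) (n : ℕ) : (s + n).im = s.im := by simp

lemma cpow_R_ne {R : ℝ} (hR : 0 < R) (z : ℂ) : (R : ℂ) ^ z ≠ 0 := by
  rw [Ne, cpow_eq_zero_iff]
  exact fun h => (ofReal_ne_zero.mpr hR.ne') h.1

lemma GG_ne {R : ℝ} (hR : 0 < R) (e : ι → ℕ) {s : ℂ} (hs : s.im ≠ 0) : GG R e s ≠ 0 := by
  unfold GG
  refine mul_ne_zero (cpow_R_ne hR _) (Finset.prod_ne_zero_iff.2 fun i _ => ?_)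
  exact Gammaℝ_ne_zero_of_im (by rwa [im_add_nat])

lemma an_R {R : ℝ} (hR : 0 < R) (s : ℂ) : AnalyticAt ℂ (fun z : ℂ => (R : ℂ) ^ (z / 2)) s := by
  have hRc : (R : ℂ) ≠ 0 := ofReal_ne_zero.mpr hR.ne'
  have : Differentiable ℂ (fun z : ℂ => (R : ℂ) ^ (z / 2)) := fun z =>
    DifferentiableAt.const_cpow (by fun_prop) (Or.inl hRc)
  exact this.analyticAt s

lemma an_Gam (n : ℕ) {s : ℂ} (hs : s.im ≠ 0) : AnalyticAt ℂ (fun z : ℂ => Gammaℝ (z + n)) s := by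
  have h1 : AnalyticAt ℂ (fun z : ℂ => z + (n : ℂ)) s := by fun_prop
  exact (analyticAt_Gammaℝ (by rwa [im_add_nat])).fun_comp h1

lemma GG_an {R : ℝ} (hR : 0 < R) (e : ι → ℕ) {s : ℂ} (hs : s.im ≠ 0) :
    AnalyticAt ℂ (GG R e) s := by
  have h1 : AnalyticAt ℂ (fun z : ℂ => ∏ i, Gammaℝ (z + e i)) s :=
    Finset.analyticAt_fun_prod _ fun i _ => an_Gam (e i) hs
  exact (an_R hR s).mul h1

lemma conj_Gammaℝ (z : ℂ) : (starRingEnd ℂ) (Gammaℝ z) = Gammaℝ ((starRingEnd ℂ) z) := by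
  unfold Gammaℝ
  rw [map_mul, conj_real_cpow Real.pi_pos, ← Complex.Gamma_conj]
  simp only [map_div₀, map_neg, map_ofNat]

lemma conj_GG {R : ℝ} (hR : 0 < R) (e : ι → ℕ) (z : ℂ) :
    (starRingEnd ℂ) (GG R e z) = GG R e ((starRingEnd ℂ) z) := by
  unfold GG
  rw [map_mul, conj_real_cpow hR, map_prod]
  simp only [conj_Gammaℝ, map_div₀, map_ofNat, map_add, map_natCast]

/-- the factor of the asymmetric functional equation -/
noncomputable def LX (w : ℂ) (R : ℝ) (e : ι → ℕ) (z : ℂ) : ℂ := w * GG R e (1 - z) / GG R e z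

lemma im_one_sub {s : ℂ} (hs : s.im ≠ 0) : (1 - s).im ≠ 0 := by simpa using hs

lemma LX_ne {w : ℂ} (hw : w ≠ 0) {R : ℝ} (hR : 0 < R) (e : ι → ℕ) {s : ℂ} (hs : s.im ≠ 0) :
    LX w R e s ≠ 0 :=
  div_ne_zero (mul_ne_zero hw (GG_ne hR e (im_one_sub hs))) (GG_ne hR e hs)

lemma LX_an (w : ℂ) {R : ℝ} (hR : 0 < R) (e : ι → ℕ) {s : ℂ} (hs : s.im ≠ 0) :
    AnalyticAt ℂ (LX w R e) s := by
  have h0 : AnalyticAt ℂ (fun z : ℂ => 1 - z) s := by fun_prop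
  have h1 : AnalyticAt ℂ (fun z : ℂ => GG R e (1 - z)) s :=
    (GG_an hR e (im_one_sub hs)).fun_comp h0
  exact (analyticAt_const.mul h1).div (GG_an hR e hs) (GG_ne hR e hs)

theorem fe_asym {R : ℝ} (hR : 0 < R) {e : ι → ℕ} {F : ℂ → ℂ} (hF : FEd R e F) :
    ∃ w : ℂ, ‖w‖ = 1 ∧ ∀ z : ℂ, z.im ≠ 0 → F z = LX w R e z * refl F z := by
  obtain ⟨w, hw, h⟩ := hF.fe
  refine ⟨w, hw, fun z hz => ?_⟩
  have h1 := h z hz
  rw [map_mul, conj_GG hR] at h1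
  have e1 : (starRingEnd ℂ) (1 - (starRingEnd ℂ) z) = 1 - z := by simp
  rw [e1] at h1
  have hg := GG_ne hR e hz
  unfold LX H370.DL.refl
  field_simp
  linear_combination h1

/-! ### logarithmic derivatives -/

lemma logDeriv_GG {R : ℝ} (hR : 0 < R) (e : ι → ℕ) {s : ℂ} (hs : s.im ≠ 0) :
    logDeriv (GG R e) s = (Real.log R : ℂ) / 2 + ∑ i, logDeriv Gammaℝ (s + e i) := by
  have hRc : (R : ℂ) ≠ 0 := ofReal_ne_zero.mpr hR.ne'
  have h1 : logDeriv (fun z : ℂ => (R : ℂ) ^ (z / 2)) s = (Real.log R : ℂ) / 2 := by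
    have h2 : HasDerivAt (fun z : ℂ => (R : ℂ) ^ (z / 2))
        ((R : ℂ) ^ (s / 2) * Complex.log (R : ℂ) * (1 / 2)) s :=
      ((hasDerivAt_id s).div_const 2).const_cpow (Or.inl hRc)
    rw [logDeriv_apply, h2.deriv, ← Complex.ofReal_log hR.le]
    have := cpow_R_ne hR (s / 2)
    field_simp
  have h3 : ∀ i, logDeriv (fun z : ℂ => Gammaℝ (z + e i)) s = logDeriv Gammaℝ (s + e i) := by
    intro i
    have ha : DifferentiableAt ℂ Gammaℝ (s + e i) :=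
      (analyticAt_Gammaℝ (by rwa [im_add_nat])).differentiableAt
    have hb : HasDerivAt (fun z : ℂ => z + (e i : ℂ)) 1 s := (hasDerivAt_id s).add_const _
    have hc : HasDerivAt (fun z : ℂ => Gammaℝ (z + e i)) (deriv Gammaℝ (s + e i)) s := by
      simpa [Function.comp_def] using HasDerivAt.comp s ha.hasDerivAt hb
    rw [logDeriv_apply, hc.deriv, logDeriv_apply]
  have h4 : logDeriv (fun z : ℂ => ∏ i, Gammaℝ (z + e i)) s =
      ∑ i, logDeriv (fun z : ℂ => Gammaℝ (z + e i)) s :=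
    logDeriv_prod (f := fun i (z : ℂ) => Gammaℝ (z + e i))
      (fun i _ => Gammaℝ_ne_zero_of_im (by rwa [im_add_nat]))
      (fun i _ => (an_Gam (e i) hs).differentiableAt)
  have h5 : logDeriv (GG R e) s = logDeriv (fun z : ℂ => (R : ℂ) ^ (z / 2)) s +
      logDeriv (fun z : ℂ => ∏ i, Gammaℝ (z + e i)) s := by
    refine logDeriv_mul s (cpow_R_ne hR _) ?_ (an_R hR s).differentiableAt ?_
    · exact Finset.prod_ne_zero_iff.2 fun i _ => Gammaℝ_ne_zero_of_im (by rwa [im_add_nat])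
    · exact (Finset.analyticAt_fun_prod _ fun i _ => an_Gam (e i) hs).differentiableAt
  rw [h5, h1, h4, Finset.sum_congr rfl fun i _ => h3 i]

lemma logDeriv_LX {w : ℂ} (hw : w ≠ 0) {R : ℝ} (hR : 0 < R) (e : ι → ℕ) {s : ℂ} (hs : s.im ≠ 0) :
    logDeriv (LX w R e) s = -logDeriv (GG R e) (1 - s) - logDeriv (GG R e) s := by
  have h0 := GG_ne hR e (im_one_sub hs)
  have h0' := GG_ne hR e hs
  have hd1 := (GG_an hR e (im_one_sub hs)).differentiableAt.hasDerivAt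
  have hd2 := (GG_an hR e hs).differentiableAt.hasDerivAt
  have hd3 : HasDerivAt (fun z : ℂ => GG R e (1 - z)) (deriv (GG R e) (1 - s) * (-1)) s :=
    HasDerivAt.comp s hd1 ((hasDerivAt_id s).const_sub 1)
  have hd4 := ((hd3.const_mul w).div hd2 h0')
  have e4 : deriv (LX w R e) s = _ := hd4.deriv
  rw [logDeriv_apply, e4, logDeriv_apply, logDeriv_apply, LX]
  generalize GG R e (1 - s) = G1 at *
  generalize GG R e s = G2 at *
  field_simp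

/-- the estimate of the logarithmic derivative of the gamma factor -/
lemma GG_est {C : ℝ} (hC : ∀ z : ℂ, -1 / 2 ≤ z.re → z.re ≤ 6 → 1 ≤ |z.im| →
    ‖logDeriv Gammaℝ z - 1 / 2 * Real.log |z.im|‖ ≤ C) {R : ℝ} (hR : 0 < R) {e : ι → ℕ}
    (he : ∀ i, e i ≤ 1) {s : ℂ} (h1 : -1 / 2 ≤ s.re) (h2 : s.re ≤ 3 / 2) (h3 : 1 ≤ |s.im|) :
    ‖logDeriv (GG R e) s - ((Real.log R / 2 + Fintype.card ι * (1 / 2 * Real.log |s.im|) : ℝ) : ℂ)‖
      ≤ Fintype.card ι * C := by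
  have hs : s.im ≠ 0 := by
    intro h
    rw [h, abs_zero] at h3
    linarith
  rw [logDeriv_GG hR e hs]
  have e1 : (Real.log R : ℂ) / 2 + ∑ i, logDeriv Gammaℝ (s + e i) -
      ((Real.log R / 2 + Fintype.card ι * (1 / 2 * Real.log |s.im|) : ℝ) : ℂ) =
      ∑ i, (logDeriv Gammaℝ (s + e i) - 1 / 2 * Real.log |(s + e i).im|) := by
    rw [Finset.sum_sub_distrib]
    simp only [im_add_nat]
    rw [Finset.sum_const, Finset.card_univ, nsmul_eq_mul]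
    push_cast
    ring
  rw [e1]
  have e2 : ∀ i ∈ (Finset.univ : Finset ι),
      ‖logDeriv Gammaℝ (s + e i) - 1 / 2 * Real.log |(s + e i).im|‖ ≤ C := by
    intro i _
    have h4 : (e i : ℝ) ≤ 1 := by exact_mod_cast he i
    have h5 : (0 : ℝ) ≤ e i := Nat.cast_nonneg _
    have h6 : (s + e i).re = s.re + e i := by simp
    exact hC (s + e i) (by rw [h6]; linarith) (by rw [h6]; linarith) (by rw [im_add_nat]; exact h3)
  refine (norm_sum_le_of_le _ e2).trans ?_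
  rw [Finset.sum_const, Finset.card_univ, nsmul_eq_mul]

/-! ### the reciprocal of the gamma factor -/

lemma inv_Gammaℝ_le : ∃ M : ℝ, 0 ≤ M ∧ ∀ z : ℂ, -1 / 2 ≤ z.re → z.re ≤ 5 / 2 → 2 ≤ |z.im| →
    ‖(Gammaℝ z)⁻¹‖ ≤ M * Real.exp (Real.pi * |z.im|) := by
  obtain ⟨M, hM0, hM⟩ := inv_Gamma_le
  refine ⟨Real.pi ^ (5 / 4 : ℝ) * M, by positivity, fun z h1 h2 h3 => ?_⟩
  have hre : (z / 2).re = z.re / 2 := by simp
  have him : (z / 2).im = z.im / 2 := by simp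
  have h4 := hM (z / 2) (by rw [hre]; linarith) (by rw [him, abs_div, abs_two]; linarith)
  rw [him, abs_div, abs_two] at h4
  unfold Gammaℝ
  rw [mul_inv, norm_mul]
  have h5 : ‖((Real.pi : ℂ) ^ (-z / 2))⁻¹‖ ≤ Real.pi ^ (5 / 4 : ℝ) := by
    rw [norm_inv, Complex.norm_cpow_eq_rpow_re_of_pos Real.pi_pos, ← Real.rpow_neg Real.pi_pos.le]
    refine Real.rpow_le_rpow_of_exponent_le (by linarith [Real.pi_gt_three]) ?_
    have : (-z / 2).re = -(z.re / 2) := by simp [neg_div]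
    rw [this]
    linarith
  have h6 : Real.exp (Real.pi * (|z.im| / 2)) ≤ Real.exp (Real.pi * |z.im|) := by
    refine Real.exp_le_exp.2 (mul_le_mul_of_nonneg_left ?_ Real.pi_pos.le)
    linarith [abs_nonneg z.im]
  calc ‖((Real.pi : ℂ) ^ (-z / 2))⁻¹‖ * ‖(Gamma (z / 2))⁻¹‖
      ≤ Real.pi ^ (5 / 4 : ℝ) * (M * Real.exp (Real.pi * (|z.im| / 2))) := by gcongr
    _ ≤ Real.pi ^ (5 / 4 : ℝ) * (M * Real.exp (Real.pi * |z.im|)) := by gcongr
    _ = _ := by ring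

lemma inv_GG_le {R : ℝ} (hR : 0 < R) {e : ι → ℕ} (he : ∀ i, e i ≤ 1) : ∃ M : ℝ, 0 ≤ M ∧
    ∀ z : ℂ, -1 / 2 ≤ z.re → z.re ≤ 3 / 2 → 2 ≤ |z.im| →
      ‖(GG R e z)⁻¹‖ ≤ M * Real.exp (Fintype.card ι * Real.pi * |z.im|) := by
  obtain ⟨M, hM0, hM⟩ := inv_Gammaℝ_le
  refine ⟨(R ^ (1 / 4 : ℝ) + R ^ (-(3 / 4) : ℝ)) * M ^ Fintype.card ι, by positivity,
    fun z h1 h2 h3 => ?_⟩
  unfold GG
  rw [mul_inv, norm_mul, ← Finset.prod_inv_distrib, norm_prod]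
  have e3 : ‖((R : ℂ) ^ (z / 2))⁻¹‖ ≤ R ^ (1 / 4 : ℝ) + R ^ (-(3 / 4) : ℝ) := by
    rw [norm_inv, Complex.norm_cpow_eq_rpow_re_of_pos hR, ← Real.rpow_neg hR.le]
    have hre : (z / 2).re = z.re / 2 := by simp
    rw [hre]
    rcases le_total 1 R with h | h
    · have := Real.rpow_le_rpow_of_exponent_le h (show -(z.re / 2) ≤ 1 / 4 by linarith)
      have h5 : 0 ≤ R ^ (-(3 / 4) : ℝ) := by positivity
      linarith
    · have := Real.rpow_le_rpow_of_exponent_ge hR h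
        (show (-(3 / 4) : ℝ) ≤ -(z.re / 2) by linarith)
      have h5 : 0 ≤ R ^ (1 / 4 : ℝ) := by positivity
      linarith
  have e4 : ∏ i, ‖(Gammaℝ (z + e i))⁻¹‖ ≤
      ∏ _i : ι, (M * Real.exp (Real.pi * |z.im|)) := by
    refine Finset.prod_le_prod (fun i _ => norm_nonneg _) fun i _ => ?_
    have h4 : (e i : ℝ) ≤ 1 := by exact_mod_cast he i
    have h5 : (0 : ℝ) ≤ e i := Nat.cast_nonneg _
    have h6 : (z + e i).re = z.re + e i := by simp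
    have h7 := hM (z + e i) (by rw [h6]; linarith) (by rw [h6]; linarith)
      (by rw [im_add_nat]; exact h3)
    rwa [im_add_nat] at h7
  rw [Finset.prod_const, Finset.card_univ, mul_pow, ← Real.exp_nat_mul] at e4
  calc ‖((R : ℂ) ^ (z / 2))⁻¹‖ * ∏ i, ‖(Gammaℝ (z + e i))⁻¹‖
      ≤ (R ^ (1 / 4 : ℝ) + R ^ (-(3 / 4) : ℝ)) * (M ^ Fintype.card ι *
        Real.exp (Fintype.card ι * (Real.pi * |z.im|))) := by gcongr
    _ = _ := by rw [mul_assoc (Fintype.card ι : ℝ)]; ring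

/-! ### the line `Re s = -1/2` -/

lemma norm_Gammaℝ_edge {s : ℂ} (hre : s.re = -1 / 2) (hs : s.im ≠ 0) {n : ℕ} (hn : n ≤ 1) :
    ‖Gammaℝ (1 - s + n)‖ ≤ ‖Gammaℝ (s + n)‖ * ‖s + 3‖ := by
  set u : ℂ := (starRingEnd ℂ) (s + n) with hu
  have e1 : (1 - s + n : ℂ) = u + 2 := by
    apply Complex.ext
    · simp only [hu, add_re, sub_re, one_re, conj_re, natCast_re, hre, re_ofNat]; ring
    · simp only [hu, add_im, sub_im, one_im, conj_im, natCast_im, im_ofNat]; ring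
  have hu0 : u ≠ 0 := by
    intro h
    have := congrArg Complex.im h
    rw [hu, conj_im, im_add_nat, zero_im] at this
    exact hs (by linarith)
  have h4 : (n : ℝ) ≤ 1 := by exact_mod_cast hn
  have h5 : (0 : ℝ) ≤ n := Nat.cast_nonneg _
  have h6 : ‖u‖ ≤ ‖s + 3‖ := by
    rw [hu, RCLike.norm_conj]
    refine le_of_sq_le_sq ?_ (norm_nonneg _)
    rw [Complex.sq_norm, Complex.sq_norm, Complex.normSq_apply, Complex.normSq_apply]
    simp only [add_re, add_im, natCast_re, natCast_im, re_ofNat, im_ofNat, hre]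
    nlinarith
  rw [e1, Gammaℝ_add_two hu0, norm_div, norm_div, norm_mul]
  have h7 : ‖Gammaℝ u‖ = ‖Gammaℝ (s + n)‖ := by
    rw [hu, ← conj_Gammaℝ, RCLike.norm_conj]
  have h8 : ‖(2 : ℂ)‖ = 2 := by norm_num
  have h9 : ‖(Real.pi : ℂ)‖ = Real.pi := by
    rw [Complex.norm_real, Real.norm_of_nonneg Real.pi_pos.le]
  rw [h7, h8, h9, div_div]
  have h10 : (1 : ℝ) ≤ 2 * Real.pi := by linarith [Real.pi_gt_three]
  have h11 : 0 ≤ ‖Gammaℝ (s + n)‖ * ‖u‖ := by positivity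
  calc ‖Gammaℝ (s + n)‖ * ‖u‖ / (2 * Real.pi) ≤ ‖Gammaℝ (s + n)‖ * ‖u‖ := div_le_self h11 h10
    _ ≤ ‖Gammaℝ (s + n)‖ * ‖s + 3‖ := by gcongr

lemma norm_LX {w : ℂ} (hw : ‖w‖ = 1) {R : ℝ} (hR : 0 < R) {e : ι → ℕ} (he : ∀ i, e i ≤ 1) {s : ℂ}
    (hre : s.re = -1 / 2) (hs : s.im ≠ 0) :
    ‖LX w R e s‖ ≤ R * ‖s + 3‖ ^ Fintype.card ι := by
  have h0 := GG_ne hR e hs
  unfold LX
  rw [norm_div, norm_mul, hw, one_mul, div_le_iff₀ (norm_pos_iff.2 h0)]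
  unfold GG
  rw [norm_mul, norm_mul, norm_prod, norm_prod, Complex.norm_cpow_eq_rpow_re_of_pos hR,
    Complex.norm_cpow_eq_rpow_re_of_pos hR]
  have h1 : ((1 - s) / 2).re = 1 + (s / 2).re := by
    have a1 : ((1 - s) / 2).re = (1 - s.re) / 2 := by simp
    have a2 : (s / 2).re = s.re / 2 := by simp
    rw [a1, a2, hre]
    norm_num
  rw [h1, Real.rpow_add hR, Real.rpow_one]
  have h2 : ∏ i, ‖Gammaℝ (1 - s + e i)‖ ≤ ∏ i, (‖Gammaℝ (s + e i)‖ * ‖s + 3‖) :=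
    Finset.prod_le_prod (fun i _ => norm_nonneg _) fun i _ => norm_Gammaℝ_edge hre hs (he i)
  rw [Finset.prod_mul_distrib, Finset.prod_const, Finset.card_univ] at h2
  calc R * R ^ (s / 2).re * ∏ i, ‖Gammaℝ (1 - s + e i)‖
      ≤ R * R ^ (s / 2).re * ((∏ i, ‖Gammaℝ (s + e i)‖) * ‖s + 3‖ ^ Fintype.card ι) := by gcongr
    _ = _ := by ring

end Pool.Agent.Y772.FE
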